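import Pool.Agent.Q329.PSy.Main

/-!
# Deciding irreducibility of consistent path systems is coNP-hard

The definitions used in the statement are in `Pool/Agent/Q329/PSy/Defs.lean`:

* `IsPathSystem G P`: `P` is a consistent path system in the graph `G` (`P u v` lists the vertices of
  the path from `u` to `v`);
* `IsReduction P A`, `Irreducible P`: the set `A` with its complement is a reduction of `P`; there
  is none;
* `inst G P`: the input (the adjacency matrix and the table of all paths); `HasReduction`: the
  decision problem.

`InNP`, `InP`, `NPHardP` (from `Pool/Agent/NPC`) are the classes NP and P of languages, and hardness
for NP under polynomial-time many-one reductions.

Proof. All paths have at most three vertices. Such a path system is given by pairs `{a, c}` with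
middle vertices `b` such that the pairs `{a, b}` and `{b, c}` have no middle vertices, and a reduction
is a colouring with two colours, both of them used, in which `b` has the colour of `a` and `c`
whenever these have the same colour. There is a gadget with ten vertices (found by computer) whose
only admissible colourings are the two constant ones and the two which are constant on two halves of
five vertices with different colours on them. Linked copies of it give arbitrarily many copies of
the constants true and false, and force all vertices to have one colour if the halves of the gadgets
have the same colour. Given the constants, the constraints express the clauses of a 3CNF formula.
-/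

set_option autoImplicit false

namespace Pool.Agent.Results.MP_a08d7f_lc.Irreducibility

open Pool.Agent.Q329.PSy Pool.Agent.NPC

/-- Deciding whether a consistent path system has a reduction is NP-hard; if a polynomial-time
algorithm decides for all consistent path systems whether they are irreducible, then P = NP. -/
theorem result : NPHardP HasReduction ∧
    ((∃ D : List Bool → List Bool, PolyTime D ∧
      ∀ (n : ℕ) (G : SimpleGraph (Fin n)) (P : Fin n → Fin n → List (Fin n)),
        IsPathSystem G P → (D (bits (inst G P)) = [true] ↔ Irreducible P)) →
      ∀ L : Set (List Bool), InNP L → InP L) :=
  ⟨hard.toHardI.toNPHardP, fun ⟨_, hD, h⟩ L hL => collapse hD h L hL⟩

end Pool.Agent.Results.MP_a08d7f_lc.Irreducibility
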